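import Pool.Agent.Q61.BS.Stm

set_option autoImplicit false

open MeasureTheory Set Filter Topology Real
open scoped Pointwise

noncomputable section

namespace Pool.Agent.Q254.BS

open Pool.Agent.Q61.BS

lemma one_lt_log3 : 1 < log 3 := by
  rw [Real.lt_log_iff_exp_lt (by norm_num)]
  have := Real.exp_one_lt_d9
  linarith

theorem xze : S_xze := by
  refine ⟨?_, ?_, one_lt_log3⟩
  · have hc : ContinuousOn (fun x : ℝ => log ((1 - x) / x) - 3 / (2 * (1 - 2 * x)))
        (Icc (1 / 10 : ℝ) (1 / 8)) := by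
      intro x hx
      have h1 : 0 < x := by linarith [hx.1]
      have h2 : 0 < 1 - x := by linarith [hx.2]
      have h3 : 0 < 1 - 2 * x := by linarith [hx.2]
      refine ContinuousAt.continuousWithinAt ?_
      refine ContinuousAt.sub (ContinuousAt.log (ContinuousAt.div (by fun_prop) (by fun_prop) h1.ne') (div_pos h2 h1).ne') ?_
      refine ContinuousAt.div (by fun_prop) (by fun_prop) (by positivity)
    have hI := intermediate_value_Ioo' (by norm_num : (1 / 10 : ℝ) ≤ 1 / 8) hc
    have ha : 0 < log ((1 - 1 / 10) / (1 / 10)) - 3 / (2 * (1 - 2 * (1 / 10 : ℝ))) := by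
      have h9 : log ((1 - 1 / 10 : ℝ) / (1 / 10)) = 2 * log 3 := by
        rw [show ((1 - 1 / 10 : ℝ) / (1 / 10)) = 3 ^ 2 by norm_num, Real.log_pow]
        norm_num
      rw [h9]
      have := one_lt_log3
      norm_num
      linarith
    have hb : log ((1 - 1 / 8) / (1 / 8)) - 3 / (2 * (1 - 2 * (1 / 8 : ℝ))) < 0 := by
      have h7 : log ((1 - 1 / 8 : ℝ) / (1 / 8)) < 2 := by
        rw [show ((1 - 1 / 8 : ℝ) / (1 / 8)) = 7 by norm_num, Real.log_lt_iff_lt_exp (by norm_num)]
        have h1 := Real.exp_one_gt_d9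
        have h2 : Real.exp 2 = Real.exp 1 * Real.exp 1 := by rw [← Real.exp_add]; norm_num
        rw [h2]
        nlinarith
      have h8 : (3 / (2 * (1 - 2 * (1 / 8 : ℝ)))) = 2 := by norm_num
      rw [h8]
      linarith
    obtain ⟨x, hx, hx0⟩ := hI ⟨hb, ha⟩
    exact ⟨x, hx, by simpa [sub_eq_zero] using hx0⟩
  · intro x hx
    have h1 : 0 < x := by linarith [hx.1]
    have h2 : 0 < 1 - x := by linarith [hx.2]
    have h3 : 0 < 1 - 2 * x := by linarith [hx.2]
    have h4 : 0 < 2 - x := by linarith [hx.2]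
    have h5 : 0 < 1 + x := by linarith
    refine ⟨?_, ?_, ?_⟩
    · unfold kap
      exact div_pos h3 (mul_pos h1 h4)
    · unfold mz
      positivity
    · unfold mz
      rw [div_lt_one (by positivity)]
      have e1 : x * (1 - x) < 7 / 64 := by nlinarith [hx.1, hx.2]
      have e2 : (3 / 4) * (15 / 8) < (1 - 2 * x) * (2 - x) :=
        mul_lt_mul'' (by linarith [hx.2]) (by linarith [hx.2]) (by norm_num) (by norm_num)
      have e3 : ((3 / 4) * (15 / 8)) * (11 / 10) < ((1 - 2 * x) * (2 - x)) * (1 + x) :=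
        mul_lt_mul'' e2 (by linarith [hx.1]) (by norm_num) (by norm_num)
      nlinarith

theorem phi1 : S_phi := by
  intro κ m hκ hm hm3
  have h5 : 0 < log 5 := Real.log_pos (by norm_num)
  have h3 : 0 < log 3 := Real.log_pos (by norm_num)
  have hb0 : 0 < be2 m := by unfold be2; positivity
  have hb : log 5 < be2 m := by
    unfold be2
    rw [lt_div_iff₀ hm]
    exact mul_lt_mul_of_pos_left hm3 h5
  refine ⟨?_, hb, ?_⟩
  · nlinarith
  · unfold DD Phi
    have e : (FF ((1 + κ) * be2 m) (be2 m) '' Icc (0 : ℝ) 1) =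
        (1 / log 5) • ((fun x => binEntropy x + m * ww κ x) '' Icc (0 : ℝ) 1) := by
      rw [← Set.image_smul, Set.image_image]
      refine Set.image_congr fun x hx => ?_
      have h1 : 0 < 1 + κ * x := by
        have : 0 ≤ κ * x := mul_nonneg hκ.le hx.1
        linarith
      show FF ((1 + κ) * be2 m) (be2 m) x = (1 / log 5) * (binEntropy x + m * ww κ x)
      unfold FF ww
      have e1 : x * ((1 + κ) * be2 m) + (1 - x) * be2 m = be2 m * (1 + κ * x) := by ring
      rw [e1]
      unfold be2
      field_simp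
    rw [e, Real.sSup_smul_of_nonneg (by positivity), smul_eq_mul]
    ring

end Pool.Agent.Q254.BS
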